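import Pool.Agent.Y854.IN.Law
import Pool.Agent.Y854.GM.Sets

/-! Counting lemmas for invariant sets along sparse sequences. -/

set_option autoImplicit false

open Finset Filter Topology

namespace Pool.Agent.Y854.IN

/-- the counts of the elements of `S` of sign `s` -/
lemma ncard_eq {s : ℤ} (hs : s = 1 ∨ s = -1) (S : Set ℤ) (N : ℕ) :
    (Set.ncard {x : ℤ | x ∈ S ∧ 1 ≤ s * x ∧ s * x ≤ N} : ℝ) = ∑ t ∈ Ioc 0 N, ind s S t := by
  classical
  have h1 : {x : ℤ | x ∈ S ∧ 1 ≤ s * x ∧ s * x ≤ N} =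
      (((Ioc 0 N).filter (fun t : ℕ => s * (t : ℤ) ∈ S)).image (fun t : ℕ => s * (t : ℤ)) : Finset ℤ) := by
    ext x
    simp only [Set.mem_ofPred_eq, coe_image, coe_filter, mem_Ioc, Set.mem_image]
    constructor
    · rintro ⟨h3, h1, h2⟩
      have h0 : 0 ≤ s * x := by omega
      refine ⟨(s * x).toNat, ?_, ?_⟩
      · have h4 : ((s * x).toNat : ℤ) = s * x := Int.toNat_of_nonneg h0
        refine ⟨⟨by omega, by omega⟩, ?_⟩
        rw [h4]
        have h5 : s * (s * x) = x := by rcases hs with rfl | rfl <;> ring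
        rwa [h5]
      · have h4 : ((s * x).toNat : ℤ) = s * x := Int.toNat_of_nonneg h0
        rw [h4]
        rcases hs with rfl | rfl <;> ring
    · rintro ⟨t, ⟨⟨h1, h2⟩, h3⟩, rfl⟩
      have h5 : s * (s * (t : ℤ)) = t := by rcases hs with rfl | rfl <;> ring
      rw [h5]
      exact ⟨h3, by exact_mod_cast h1, by exact_mod_cast h2⟩
  rw [h1, Set.ncard_coe_finset, Finset.card_image_of_injective]
  · unfold ind
    rw [Finset.sum_boole]
  · intro a b hab
    simp only at hab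
    rcases hs with rfl | rfl <;> omega

open Classical in
lemma seq_eq (s : ℤ) (S : Set ℤ) (m : ℕ → ℕ) (N : ℕ) :
    (((Icc 1 N).filter (fun n : ℕ => s * (m n : ℤ) ∈ S)).card : ℝ) = ∑ n ∈ Icc 1 N, ind s S (m n) := by
  unfold ind
  rw [Finset.sum_boole]

open Classical in
/-- a set of small density on the whole line, on the side `s` -/
lemma side_le {s : ℤ} (hs : s = 1 ∨ s = -1) (P : Set ℤ) (X : ℕ)
    (hfin : {x : ℤ | |(x : ℝ)| ≤ (X : ℝ) ∧ x ∈ P}.Finite) :
    (((Ioc 0 X).filter (fun t => t ∈ {t : ℕ | s * (t : ℤ) ∈ P})).card : ℝ) ≤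
      ({x : ℤ | |(x : ℝ)| ≤ (X : ℝ) ∧ x ∈ P}.ncard : ℝ) := by
  have hinj : Function.Injective (fun t : ℕ => s * (t : ℤ)) := by
    intro a b hab
    simp only at hab
    rcases hs with rfl | rfl <;> omega
  rw [← Finset.card_image_of_injective _ hinj, ← Set.ncard_coe_finset]
  refine Nat.cast_le.2 (Set.ncard_le_ncard ?_ hfin)
  intro x hx
  rw [coe_image, Set.mem_image] at hx
  obtain ⟨t, ht, rfl⟩ := hx
  rw [mem_coe, mem_filter, mem_Ioc] at ht
  refine ⟨?_, ht.2⟩
  have h1 : (t : ℝ) ≤ X := by exact_mod_cast ht.1.2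
  have h0 : (0 : ℝ) ≤ t := Nat.cast_nonneg _
  rcases hs with rfl | rfl
  · push_cast
    rw [one_mul, abs_of_nonneg h0]
    exact h1
  · push_cast
    rw [neg_one_mul, abs_neg, abs_of_nonneg h0]
    exact h1

end Pool.Agent.Y854.IN
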