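import Pool.Agent.Y854.GM.Mean2

/-! The sets of integers which are invariant under the maps of a countable family, along sparse sequences. -/

set_option autoImplicit false

open Finset Filter Topology

namespace Pool.Agent.Y854.IN

open Pool.Agent.Y854.PS (wt)

/-- `S` is a union of classes of trajectories of `T` which meet -/
def Inv (T : ℤ → ℤ) (S : Set ℤ) : Prop := ∀ x : ℤ, x ∈ S ↔ T x ∈ S

lemma inv_iter {T : ℤ → ℤ} {S : Set ℤ} (hS : Inv T S) (k : ℕ) (x : ℤ) : x ∈ S ↔ T^[k] x ∈ S := by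
  induction k generalizing x with
  | zero => rfl
  | succ k ih => rw [Function.iterate_succ_apply, ← ih, hS x]

/-- the indicator function of `S` on the integers of sign `s` -/
noncomputable def ind (s : ℤ) (S : Set ℤ) (t : ℕ) : ℝ := by
  classical exact if s * (t : ℤ) ∈ S then 1 else 0

lemma ind_nonneg (s : ℤ) (S : Set ℤ) (t : ℕ) : 0 ≤ ind s S t := by
  unfold ind; split_ifs <;> norm_num

lemma ind_le (s : ℤ) (S : Set ℤ) (t : ℕ) : ind s S t ≤ 1 := by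
  unfold ind; split_ifs <;> norm_num

/-- the natural density of `S` among the integers of sign `s` -/
def DS (s : ℤ) (S : Set ℤ) (δ : ℝ) : Prop := Tendsto (fun X : ℕ => (∑ t ∈ Ioc 0 X, ind s S t) / X) atTop (𝓝 δ)

/-- the integers whose trajectories do not meet a trajectory starting in `[-y, y]` -/
def Rem (T : ℤ → ℤ) (y : ℕ) : Set ℤ := {x : ℤ | ∀ z : ℤ, |z| ≤ y → ∀ k l : ℕ, T^[k] x ≠ T^[l] z}

lemma rem_inv (T : ℤ → ℤ) (y : ℕ) : Inv T (Rem T y) := by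
  intro x
  constructor
  · intro h z hz k l e
    exact h z hz (k + 1) l (by rw [Function.iterate_succ_apply]; exact e)
  · intro h z hz k l e
    refine h z hz k (l + 1) ?_
    rw [← Function.iterate_succ_apply, Function.iterate_succ_apply', e, Function.iterate_succ_apply']

/-- the elements in `[-y, y]` decide the membership of an invariant set off `Rem` -/
lemma agree {T : ℤ → ℤ} {S R : Set ℤ} (hS : Inv T S) (hR : Inv T R) (y : ℕ)
    (h : ∀ x : ℤ, |x| ≤ y → (x ∈ S ↔ x ∈ R)) (s : ℤ) (t : ℕ) :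
    |ind s S t - ind s R t| ≤ ind s (Rem T y) t := by
  unfold ind
  by_cases hst : s * (t : ℤ) ∈ Rem T y
  · rw [if_pos hst]
    split_ifs <;> simp
  · rw [if_neg hst]
    have hst' : ¬ ∀ z : ℤ, |z| ≤ y → ∀ k l : ℕ, T^[k] (s * (t : ℤ)) ≠ T^[l] z := hst
    push Not at hst'
    obtain ⟨z, hz, k, l, e⟩ := hst'
    have e1 : s * (t : ℤ) ∈ S ↔ s * (t : ℤ) ∈ R := by
      rw [inv_iter hS k, inv_iter hR k, e, ← inv_iter hS l, ← inv_iter hR l]
      exact h z hz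
    by_cases hh : s * (t : ℤ) ∈ S
    · rw [if_pos hh, if_pos (e1.mp hh)]
      simp
    · rw [if_neg hh, if_neg (fun h => hh (e1.mpr h))]
      simp

open Classical in
/-- an invariant set with the given elements of small absolute value -/
noncomputable def rep (T : ℤ → ℤ) (y : ℕ) (A : Finset ℤ) : Set ℤ :=
  if h : ∃ S : Set ℤ, Inv T S ∧ ∀ x : ℤ, |x| ≤ y → (x ∈ S ↔ x ∈ A) then h.choose else ∅

lemma rep_inv (T : ℤ → ℤ) (y : ℕ) (A : Finset ℤ) : Inv T (rep T y A) := by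
  unfold rep
  split_ifs with h
  · exact h.choose_spec.1
  · intro x
    simp

lemma rep_spec (T : ℤ → ℤ) (y : ℕ) (A : Finset ℤ) {S : Set ℤ} (hS : Inv T S) (h : ∀ x : ℤ, |x| ≤ y → (x ∈ S ↔ x ∈ A))
    (x : ℤ) (hx : |x| ≤ y) : x ∈ S ↔ x ∈ rep T y A := by
  have hex : ∃ S : Set ℤ, Inv T S ∧ ∀ x : ℤ, |x| ≤ y → (x ∈ S ↔ x ∈ A) := ⟨S, hS, h⟩
  unfold rep
  rw [dif_pos hex, hex.choose_spec.2 x hx]
  exact h x hx

/-- the sign with a given code -/
def sgn (b : Bool) : ℤ := if b then 1 else -1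

lemma exists_code {s : ℤ} (hs : s = 1 ∨ s = -1) : ∃ b : Bool, sgn b = s := by
  rcases hs with rfl | rfl
  · exact ⟨true, rfl⟩
  · exact ⟨false, rfl⟩

/-- **Invariant sets along sparse sequences.** -/
theorem law (c : ℝ) (hc : 1 < c) {ι : Type} [Countable ι] (T : ι → ℤ → ℤ) :
    ∃ E : Set ℝ, dimH E < 1 ∧ ∀ α : ℝ, 0 < α → α ∉ E → ∀ i : ι, ∀ s : ℤ, (s = 1 ∨ s = -1) →
      (∀ S : Set ℤ, Inv (T i) S → ∃ δ : ℝ, DS s S δ) →
      (∀ ε : ℝ, 0 < ε → ∃ y : ℕ, ∀ δ : ℝ, DS s (Rem (T i) y) δ → δ ≤ ε) →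
      ∀ ε : ℝ, 0 < ε → ∃ N0 : ℕ, ∀ N : ℕ, N0 ≤ N → ∀ S : Set ℤ, Inv (T i) S → ∀ δ : ℝ, DS s S δ →
        |(∑ n ∈ Icc 1 N, ind s S ⌊α * (n : ℝ) ^ c⌋₊) / N - δ| ≤ ε := by
  classical
  obtain ⟨κ, hκ, hκ1, hmean⟩ := Pool.Agent.Y854.GM.mean2 c hc
  obtain ⟨E, hE, hlaw⟩ := hmean (fun (k : ι × Bool × ℕ × Finset ℤ × Bool) (t : ℕ) =>
    if k.2.2.2.2 then ind (sgn k.2.1) (rep (T k.1) k.2.2.1 k.2.2.2.1) t
    else ind (sgn k.2.1) (Rem (T k.1) k.2.2.1) t)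
  refine ⟨E, hE, fun α hα hαE i s hs hdens hrem ε hε => ?_⟩
  obtain ⟨b, hb⟩ := exists_code hs
  have hgr : ∀ S : Set ℤ, ∃ C : ℝ, 0 < C ∧ ∀ m : ℕ, 1 ≤ m → |ind s S m| ≤ C * (m : ℝ) ^ κ := by
    intro S
    refine ⟨1, one_pos, fun m hm => ?_⟩
    rw [abs_of_nonneg (ind_nonneg _ _ _), one_mul]
    exact (ind_le _ _ _).trans (Real.one_le_rpow (by exact_mod_cast hm) hκ.le)
  -- the level
  obtain ⟨y, hy⟩ := hrem (ε / 8) (by positivity)
  obtain ⟨τ, hτ⟩ := hdens (Rem (T i) y) (rem_inv _ _)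
  have hτ1 := hy τ hτ
  obtain ⟨Ns, hNs⟩ := hlaw α hα hαE (i, b, y, ∅, false) (by
    simp only [hb, Bool.false_eq_true, if_false]
    exact hgr _)
  simp only [hb, Bool.false_eq_true, if_false] at hNs
  have hs1 := Pool.Agent.Y854.GM.seq_mean hα hc hκ (ind s (Rem (T i) y)) hτ Ns hNs
  rw [Metric.tendsto_atTop] at hs1
  obtain ⟨N1, hN1⟩ := hs1 (ε / 8) (by positivity)
  -- the representatives
  have hA : ∀ A : Finset ℤ, ∃ NA : ℕ, ∀ N : ℕ, NA ≤ N → ∀ δ : ℝ, DS s (rep (T i) y A) δ →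
      |(∑ n ∈ Icc 1 N, ind s (rep (T i) y A) ⌊α * (n : ℝ) ^ c⌋₊) / N - δ| ≤ ε / 4 := by
    intro A
    obtain ⟨δA, hδA⟩ := hdens _ (rep_inv (T i) y A)
    obtain ⟨Na, hNa⟩ := hlaw α hα hαE (i, b, y, A, true) (by
      simp only [hb, if_true]
      exact hgr _)
    simp only [hb, if_true] at hNa
    have h1 := Pool.Agent.Y854.GM.seq_mean hα hc hκ (ind s (rep (T i) y A)) hδA Na hNa
    rw [Metric.tendsto_atTop] at h1
    obtain ⟨NA, hNA⟩ := h1 (ε / 4) (by positivity)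
    refine ⟨NA, fun N hN δ hδ => ?_⟩
    have h2 : δ = δA := tendsto_nhds_unique hδ hδA
    have h3 := hNA N hN
    rw [Real.dist_eq] at h3
    rw [h2]
    exact h3.le
  choose NA hNA using hA
  refine ⟨max (max N1 1) ((Finset.Icc (-(y : ℤ)) y).powerset.sup NA), fun N hN S hS δ hδ => ?_⟩
  have hNN1 : N1 ≤ N := ((le_max_left _ _).trans (le_max_left _ _)).trans hN
  have hN1' : 1 ≤ N := ((le_max_right _ _).trans (le_max_left _ _)).trans hN
  have hNp : (0 : ℝ) < N := by exact_mod_cast hN1'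
  set A : Finset ℤ := (Finset.Icc (-(y : ℤ)) y).filter (fun x => x ∈ S) with hAdef
  have hAmem : A ∈ (Finset.Icc (-(y : ℤ)) y).powerset := by
    rw [Finset.mem_powerset]
    exact Finset.filter_subset _ _
  have hNNA : NA A ≤ N := ((Finset.le_sup (f := NA) hAmem).trans (le_max_right _ _)).trans hN
  have hSA : ∀ x : ℤ, |x| ≤ y → (x ∈ S ↔ x ∈ A) := by
    intro x hx
    rw [hAdef, mem_filter, Finset.mem_Icc, ← abs_le]
    exact ⟨fun h => ⟨hx, h⟩, fun h => h.2⟩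
  have hag := agree hS (rep_inv (T i) y A) y (rep_spec (T i) y A hS hSA) s
  obtain ⟨δA, hδA⟩ := hdens _ (rep_inv (T i) y A)
  have h1 := hNA A N hNNA δA hδA
  -- the densities
  have h2 : |δ - δA| ≤ ε / 4 := by
    have ht : Tendsto (fun X : ℕ => |(∑ t ∈ Ioc 0 X, ind s S t) / X - (∑ t ∈ Ioc 0 X, ind s (rep (T i) y A) t) / X|)
        atTop (𝓝 |δ - δA|) := (hδ.sub hδA).abs
    have h3 : |δ - δA| ≤ τ := by
      apply le_of_tendsto_of_tendsto ht hτ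
      filter_upwards [eventually_ge_atTop 1] with X hX
      have hXp : (0 : ℝ) < X := by exact_mod_cast hX
      rw [← sub_div, ← Finset.sum_sub_distrib, abs_div, abs_of_pos hXp]
      apply div_le_div_of_nonneg_right _ hXp.le
      exact (Finset.abs_sum_le_sum_abs _ _).trans (Finset.sum_le_sum fun t _ => hag t)
    linarith
  -- the frequencies
  have h3 : |(∑ n ∈ Icc 1 N, ind s S ⌊α * (n : ℝ) ^ c⌋₊) / N -
      (∑ n ∈ Icc 1 N, ind s (rep (T i) y A) ⌊α * (n : ℝ) ^ c⌋₊) / N| ≤ ε / 4 := by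
    have h4 := hN1 N hNN1
    rw [Real.dist_eq, abs_lt] at h4
    have h5 : |(∑ n ∈ Icc 1 N, ind s S ⌊α * (n : ℝ) ^ c⌋₊) / N -
        (∑ n ∈ Icc 1 N, ind s (rep (T i) y A) ⌊α * (n : ℝ) ^ c⌋₊) / N| ≤
        (∑ n ∈ Icc 1 N, ind s (Rem (T i) y) ⌊α * (n : ℝ) ^ c⌋₊) / N := by
      rw [← sub_div, ← Finset.sum_sub_distrib, abs_div, abs_of_pos hNp]
      apply div_le_div_of_nonneg_right _ hNp.le
      exact (Finset.abs_sum_le_sum_abs _ _).trans (Finset.sum_le_sum fun n _ => hag _)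
    linarith
  rw [abs_le] at h1 h2 h3 ⊢
  constructor <;> linarith [h1.1, h1.2, h2.1, h2.2, h3.1, h3.2]

end Pool.Agent.Y854.IN
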